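import Mathlib
import Pool.Agent.H14.SymGB

set_option autoImplicit false

namespace Pool.Agent.Results.MP_dd0c5a_co.Counterexample

open Pool.Agent.H14.SymGB

/-- block form -/
def Block {n : ℕ} (A : Fin n → Fin n → ℕ) (V : Finset (Fin n)) : Prop :=
  V.Nonempty ∧ Vᶜ.Nonempty ∧ ∀ i ∈ V, ∀ j ∈ Vᶜ, A i j = 0

theorem result (k : Type) [Field k] : ∃ r : P 5 → P 5 → Prop, IsExt r ∧
    ∀ G : Set (MvPolynomial (P 5) k), IsGB r G →
      ∃ g ∈ G, ∃ u, IsLM r g u ∧ deg u = 3 ∧ 3 ≤ g.totalDegree ∧ Block (mat u) {0, 1} ∧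
        mat u = ![![4, 2, 0, 0, 0], ![2, 4, 0, 0, 0], ![0, 0, 2, 2, 2], ![0, 0, 2, 2, 2],
          ![0, 0, 2, 2, 2]] := by
  refine ⟨ord, ord_ext, fun G hG => ?_⟩
  obtain ⟨g, hg, u, h1, h2, h3, h4⟩ := main 2 (Or.inr rfl) hG
  refine ⟨g, hg, u, h1, h2, h3, ?_, h4⟩
  rw [h4]
  unfold Block
  decide

end Pool.Agent.Results.MP_dd0c5a_co.Counterexample
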